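import Pool.Agent.H912.AE.Ki
import Pool.Agent.H912.AE.Cyc0

/-!
# Points over all fields of finite exponent on the pull-backs of a projective variety

Let `w` be even and `K = ℚ(ζ_w)`.  For `f ≥ 1` let `K[f]` be the infinite extension of `K` which consists
of all algebraic numbers `α` with `σ^f(α) = α` for all automorphisms `σ` of the algebraic closure over
`K`.  It is the largest Galois extension of `K` whose Galois group has exponent `f`: it contains every
Galois extension, finite or infinite, whose group has exponent dividing `f` (soluble or not), so its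
finite subextensions have unbounded degree; if `f` is divisible by `1, ..., d` it contains **all** number
fields of degree at most `d` over `K`, and `K[f g]` contains all extensions of `K[f]` of degree at most
`d` if `g` is divisible by `1, ..., d`.  These are the Galois extensions with uniformly bounded local
degrees (Checcoli).

For a closed set `X ⊂ ℙ^n` over `K`, given by an arbitrary set `S` of forms, let
`X_m = {x ∈ ℙ^n : (x_0^m : ... : x_n^m) ∈ X}`, and let `X^(f)` be the Zariski closure of the set of the
coordinatewise products of `f` points of `X`.  We prove: for all `m` outside a set of natural density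
zero, if `X_m` has a point over the infinite field `K[f]`, then `(X^(f))_m` has a point whose
coordinates are zero or `w`-th roots of unity.  So there is one set of `m` of density `1` which works
for all finite extensions `L ⊂ K[f]` of `K` at the same time.

For instance, let `p > n > f` be a prime number, and let `C_m ⊂ ℙ^n` be the smooth curve with the
equations `x_i^m + p² x_(i+2)^m = 2 p x_(i+1)^m`.  Then for 100 percent of the `m` the curve `C_m` has no
point over `K[f]`.

**Proof.** For most `m` there is a prime number `q ≡ 1` modulo `w` such that `m` is a multiple of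
`(q - 1) / (w k)`, where all prime factors of `k` are large. Let `x` be a point of `X_m` over a finite
Galois extension `L` of exponent `f`. The residue field at a prime of `L` over `q` has at most `q^f`
elements, because a Frobenius element has order dividing `f`. The norm of the reduction of `x` to the
field with `q` elements is a point of the reduction of `(X^(f))_m` modulo `q` (by compactness, for all
large `q`), and its `m`-th power has coordinates which are zero or `w k`-th roots of unity.
-/

set_option autoImplicit false

open Filter Topology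

namespace Pool.Agent.Results.MP_7ede32_ag.FieldsOfFiniteExponent

/-- The field `K[f]`: all `α` in the algebraic closure of `K` which are fixed by the `f`-th powers of all
automorphisms over `K`. -/
def expClosure (K : Type) [Field K] (f : ℕ) : IntermediateField K (AlgebraicClosure K) where
  carrier := {α | ∀ σ : AlgebraicClosure K ≃ₐ[K] AlgebraicClosure K, (σ ^ f) α = α}
  mul_mem' {a b} ha hb σ := by rw [map_mul, ha σ, hb σ]
  add_mem' {a b} ha hb σ := by rw [map_add, ha σ, hb σ]
  algebraMap_mem' a σ := AlgEquiv.commutes _ a
  inv_mem' a ha σ := by rw [map_inv₀, ha σ]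

/-- `x` is a vector of homogeneous coordinates of a point of `X_m` over the field `L`, where
`X ⊂ ℙ^n` is the set of common zeros of the forms in `S`, with coefficients in `K`, where
`X_m = {x : (x_0^m : ... : x_n^m) ∈ X}`, and where `L` is a `K`-algebra by means of `φ`. -/
def IsPt {K L : Type} [Field K] [Field L] (φ : K →+* L) {n : ℕ}
    (S : Set (MvPolynomial (Fin (n + 1)) K)) (m : ℕ) (x : Fin (n + 1) → L) : Prop :=
  x ≠ 0 ∧ ∀ F ∈ S, MvPolynomial.eval₂ φ (fun i => x i ^ m) F = 0

/-- The forms with coefficients in `K` which vanish at the coordinatewise product of any `e` zeros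
of `S`, over any field containing `K`: the equations of the Hadamard power `X^(e)`. -/
def Had {K : Type} [Field K] {n : ℕ} (S : Set (MvPolynomial (Fin (n + 1)) K)) (e : ℕ) :
    Set (MvPolynomial (Fin (n + 1)) K) :=
  {G | (∃ d, G.IsHomogeneous d) ∧ ∀ (L : Type) [Field L] (φ : K →+* L)
    (z : Fin e → Fin (n + 1) → L), (∀ j, ∀ F ∈ S, MvPolynomial.eval₂ φ (z j) F = 0) →
      MvPolynomial.eval₂ φ (fun i => ∏ j, z j i) G = 0}

/-- Every coordinate of `η` is zero or a `w`-th root of unity. -/
def IsTrivial (w : ℕ) {K : Type} [Field K] {n : ℕ} (η : Fin (n + 1) → K) : Prop :=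
  ∀ i, η i = 0 ∨ η i ^ w = 1

/-- The set `A` of positive integers has natural density `δ`. -/
def HasDensity (A : Set ℕ) (δ : ℝ) : Prop :=
  Tendsto (fun N : ℕ => ((A ∩ Set.Icc 1 N).ncard : ℝ) / N) atTop (𝓝 δ)

/-- **Main theorem.** Let `w` be even, `K = ℚ(ζ_w)`, let `X ⊂ ℙ^n` be the set of zeros of an
arbitrary set `S` of forms with coefficients in `K`, let `X_m` be the pull-back of `X` under
`x ↦ x^m`, and let `X^(f)` be the Zariski closure of the set of coordinatewise products of `f` points
of `X`.

1. For all `m` outside a set of density zero, if `X_m` has a point over the infinite field `K[f]`, then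
   `(X^(f))_m` has a point over `K` whose coordinates are zero or `w`-th roots of unity.
2. Let `1 ≤ f < n < p`, where `p` is a prime number. For all `m` outside a set of density zero, the
   equations `x_i^m + p² x_(i+2)^m = 2 p x_(i+1)^m`, `0 ≤ i ≤ n - 2`, have only the solution zero in the
   infinite field `K[f]`.
3. `K[f]` contains all normal extensions `E` of `K` with `σ^f = 1` for all `σ` in the Galois group.
4. If `g` is divisible by `1, ..., d`, then the zeros of polynomials of degree at most `d` with
   coefficients in `K[f]` are in `K[f g]`. In particular (`f = 1`) the field `K[g]` contains all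
   algebraic numbers of degree at most `d` over `K`.
5. For all `m` outside a set of density zero, if `X_m` has points over `ℚ_q` for all primes `q`
   and all embeddings of `K` in `ℚ_q`, then `X_m` has a point over `K` whose coordinates are zero
   or `w`-th roots of unity.
6. The set of `m` with `X_m(K) ≠ ∅` has a natural density, equal to the number of `a` with
   `1 ≤ a ≤ w` for which `X_a` has a point whose coordinates are zero or `w`-th roots of unity,
   divided by `w`. -/
theorem result {w : ℕ} [NeZero w] (hw : Even w) {K : Type} [Field K] [CharZero K]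
    [IsCyclotomicExtension {w} ℚ K] :
    (∀ {n : ℕ} (S : Set (MvPolynomial (Fin (n + 1)) K)), (∀ F ∈ S, ∃ D, F.IsHomogeneous D) →
      ∀ f : ℕ, HasDensity {m | (∃ x : Fin (n + 1) → expClosure K f,
        IsPt (algebraMap K (expClosure K f)) S m x) →
          ∃ η : Fin (n + 1) → K, IsTrivial w η ∧ IsPt (RingHom.id K) (Had S f) m η} 1) ∧
    (∀ n f p : ℕ, p.Prime → 1 ≤ f → f < n → n < p →
      HasDensity {m | ∀ x : Fin (n + 1) → expClosure K f,
        (∀ (i : ℕ) (h : i + 2 < n + 1), x ⟨i, by omega⟩ ^ m + (p : expClosure K f) ^ 2 *
          x ⟨i + 2, h⟩ ^ m = 2 * (p : expClosure K f) * x ⟨i + 1, by omega⟩ ^ m) → x = 0} 1) ∧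
    (∀ (f : ℕ) (E : IntermediateField K (AlgebraicClosure K)), Normal K E →
      (∀ σ : E ≃ₐ[K] E, σ ^ f = 1) → E ≤ expClosure K f) ∧
    (∀ f g d : ℕ, (∀ j, 1 ≤ j → j ≤ d → j ∣ g) → ∀ (α : AlgebraicClosure K)
      (P : Polynomial (expClosure K f)), P ≠ 0 → P.natDegree ≤ d →
        P.eval₂ (algebraMap (expClosure K f) (AlgebraicClosure K)) α = 0 →
          α ∈ expClosure K (f * g)) ∧
    (∀ {n : ℕ} (S : Set (MvPolynomial (Fin (n + 1)) K)), (∀ F ∈ S, ∃ D, F.IsHomogeneous D) →
      HasDensity {m | (∀ (q : ℕ) [Fact q.Prime] (φ : K →+* ℚ_[q]),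
          ∃ x : Fin (n + 1) → ℚ_[q], IsPt φ S m x) →
        ∃ η : Fin (n + 1) → K, IsTrivial w η ∧ IsPt (RingHom.id K) S m η} 1 ∧
      HasDensity {m | ∃ x : Fin (n + 1) → K, IsPt (RingHom.id K) S m x}
        (({a ∈ Set.Icc 1 w | ∃ η : Fin (n + 1) → K, IsTrivial w η ∧
          IsPt (RingHom.id K) S a η}.ncard : ℝ) / w)) := by
  refine ⟨fun {n} S hS f => ?_, fun n f p hp hf hfn hnp => ?_, fun f E hE hσ => ?_,
    fun f g d hg α P hP hPd hα => ?_, fun {n} S hS => ?_⟩
  · refine Pool.Agent.H912.AE.density_congr (Pool.Agent.H912.AE.expMain hw S hS f)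
      Pool.Agent.H912.AE.density_univ fun m hm _ => ⟨fun _ => Set.mem_univ _, fun _ => ?_⟩
    rintro ⟨x, hx0, hxS⟩
    obtain ⟨η, h1, h2, h3⟩ := hm (fun i => (x i : AlgebraicClosure K)) (fun i => (x i).2)
      (fun h => hx0 (funext fun i => Subtype.ext (congrFun h i))) (fun F hF => by
        have h1 := congrArg (algebraMap (expClosure K f) (AlgebraicClosure K)) (hxS F hF)
        rw [map_zero, MvPolynomial.hom_eval₂] at h1
        rw [← h1]
        congr 1)
    exact ⟨η, h1, h2, h3⟩
  · refine Pool.Agent.H912.AE.density_congr
      (Pool.Agent.H912.AE.curves hw (K := K) hp hf hfn hnp)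
      Pool.Agent.H912.AE.density_univ fun m hm _ => ⟨fun _ => Set.mem_univ _, fun _ => ?_⟩
    intro x hx
    have h1 := hm (fun i => (x i : AlgebraicClosure K)) (fun i => (x i).2) (fun i h => by
      have h2 := congrArg (algebraMap (expClosure K f) (AlgebraicClosure K)) (hx i h)
      rw [map_add, map_mul, map_mul, map_mul, map_pow, map_pow, map_pow, map_pow, map_natCast,
        map_ofNat] at h2
      exact h2)
    exact funext fun i => Subtype.ext (congrFun h1 i)
  · exact Pool.Agent.H912.AE.le_expField E hσ
  · exact Pool.Agent.H912.AE.mem_expField_mul hg hP hPd hα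
  · obtain ⟨-, h2, h3⟩ := Pool.Agent.H912.AE.Cyc0.cyclotomic hw S hS
    exact ⟨h2, h3⟩

end Pool.Agent.Results.MP_7ede32_ag.FieldsOfFiniteExponent
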