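import Pool.Agent.H905.OP.MainZ
import Pool.Agent.H905.OP.Inft
import Pool.Graph.R_pool_sql_team_seeded_63374d34.N874.QM.Gnu
import Pool.Graph.R_pool_sql_team_seeded_63374d34.N874.Jac.Def

/-!
# A positive proportion of all odd hyperelliptic curves over `ℚ` has exactly one point over infinitely many number
# fields at once

Let `g ≥ 1`. We consider ALL polynomials `f = x ^ (2 g + 1) + a_(2 g - 1) x ^ (2 g - 1) + ... + a_0` with
integral coefficients, ordered by the height: `|a_i| ≤ B ^ (2 g + 1 - i)`. (Every hyperelliptic curve of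
genus `g` over `ℚ` with a rational Weierstrass point has an equation `y ^ 2 = f(x)` with such an `f`.) Let `C` be
the smooth projective curve `y ^ 2 = f(x)`, `∞` its point at infinity and `J` its Jacobian.

For `f` and a finite set `S` of primes let `E(f, S)` be the class of all the number fields `M` which are
Galois over `ℚ` of 2-power degree, have an embedding in `ℝ` (so `M` is totally real) and an embedding in
`ℚ_2` (so `2` splits completely), in which all `q ∈ S` split completely and in which only primes are
ramified modulo which `f` is irreducible (`InClass`).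

Theorem. For every finite set `T` of primes there are a finite set `S` of primes, disjoint from `T`, and a
constant `c > 0` such that for all large `B` at least `c` times the number of all `f` of height at most `B`
are irreducible over `ℚ`, modulo `2` and modulo all `p ∈ T` and have the following properties.

1. Over ALL the number fields `M ∈ E(f, S)`: `J(M) = 0`; the 2-primary part of the Tate-Shafarevich group of
`J` over `M` is zero; all algebraic points of `C` of degree at most `2 g` over `M` are pulled back from points of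
the line; and `C(K) = {∞}` for all extensions `K` of `M` of odd degree at most `2 g - 1`, in particular
`C(M) = {∞}`.

2. The class `E(f, S)` is infinite: there is an infinite set `E` of primes such that all number fields generated
by square roots of elements of `E` belong to it. Therefore `C(L) = {∞}` also for all fields `L` of characteristic
zero, of infinite degree over `ℚ` or not, which are generated by square roots of elements of `E`.

By a theorem of Caporaso, Harris and Mazur the conjecture of Lang (Q1) implies for `g ≥ 2` that there is a number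
`N(g)` such that for every number field `k` only finitely many curves of genus `g` over `k` have more than `N(g)`
points over `k`. The theorem is about the same number of points for one curve over many number fields, without
a hypothesis: it gives a set of curves of positive density which
have exactly one point over each of infinitely many number fields, whose degrees are not bounded.

Proof. (a) Project TQ of helper874 (Results/MP_ac3185_nt/RankZeroUniformly.lean in the library): the 2-Selmer groups
over all `M ∈ E(f, S)` are trivial for a positive proportion of the `f`, so that `J(M)` is uniquely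
2-divisible. The count is done here in the residue class modulo a large integer of a polynomial for
which `y ^ 2 = f(x)` is a regular scheme over `ℤ_2`; this condition, `f = x h ^ 2 + k ^ 2 + 2 m (1 + u h)` modulo `4`,
`m` odd, is invariant under the twists that occur in the proof.

(b) The new local theorem (`Pool/Agent/H905/OP/Zero.lean`): if `O` is a discrete valuation ring with residue
characteristic two, with the field of fractions `k`, and `f` is regular in this sense over `O`, then the class
group of `k[x, y] / (y ^ 2 - f)` has no element but the trivial one which is divisible by `2 ^ n` for all `n`. It is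
applied to a prime of `M` over `2`, which is unramified. So `J(M) = 0`, and the statement on the points of degree
at most `2 g` follows from the description of the ideals of `M[x, y] / (y ^ 2 - f)`.

(c) The theorem of Chebotarev (in the library, `Q14/AR/Cheb.lean`) for the splitting field of `f` and the square roots
of `-1`, `2` and the `q ∈ S`: the `n`-th power of a Frobenius automorphism over `2`, with suitable `n`, permutes the zeros
of `f` in one cycle and fixes the square roots; this gives the infinite set `E`
(`OP/Supply.lean`, `OP/Supply2.lean`). The fields generated by square roots are in `E(f, S)` by the theory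
of decomposition groups (`OP/MQ.lean`).
-/

set_option autoImplicit false
set_option linter.all false

namespace Pool.Agent.Results.MP_7ede32_ag.OnePointUniformly

open Polynomial Filter IsDedekindDomain NumberField IntermediateField
open Pool.Agent.N874.Jac (J ShaTwoTrivialReal)
open scoped Classical

/-- `f` is a monic integral polynomial of degree `2 g + 1` without term of degree `2 g` and of height at
most `B`. -/
structure IsPoly (g B : ℕ) (f : ℤ[X]) : Prop where
  monic : f.Monic
  degree : f.natDegree = 2 * g + 1
  trace : f.coeff (2 * g) = 0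
  height : ∀ j ≤ 2 * g, |f.coeff j| ≤ (B : ℤ) ^ (2 * g + 1 - j)

/-- The polynomials `f` of height at most `B`. -/
def Polys (g B : ℕ) : Set ℤ[X] := {f | IsPoly g B f}

/-- `f` is irreducible modulo `p`. -/
def IrreducibleMod (f : ℤ[X]) (p : ℕ) : Prop := Irreducible (f.map (Int.castRingHom (ZMod p)))

/-- `p` is unramified in the number field `M`. -/
def Unramified (M : Type) [Field M] [NumberField M] (p : ℕ) : Prop :=
  ∀ w : HeightOneSpectrum (𝓞 M), (p : 𝓞 M) ∈ w.asIdeal → (p : 𝓞 M) ∉ w.asIdeal ^ 2

/-- `q` splits completely in the number field `M`: it is unramified, and all algebraic integers in `M`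
are congruent to integers modulo every prime over `q`. -/
def SplitsCompletely (M : Type) [Field M] [NumberField M] (q : ℕ) : Prop :=
  Unramified M q ∧ ∀ w : HeightOneSpectrum (𝓞 M), (q : 𝓞 M) ∈ w.asIdeal →
    ∀ y : 𝓞 M, ∃ c : ℤ, y - (c : 𝓞 M) ∈ w.asIdeal

/-- The class `E(f, S)` of number fields: Galois over `ℚ` of 2-power degree, with embeddings in `ℝ` and in
`ℚ_2`, all primes `q ∈ S` split completely, and only primes are ramified modulo which `f` is irreducible. -/
structure InClass (S : Finset ℕ) (f : ℤ[X]) (M : Type) [Field M] [NumberField M] : Prop where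
  galois : IsGalois ℚ M
  degree : ∃ n : ℕ, Module.finrank ℚ M = 2 ^ n
  real : Nonempty (M →+* ℝ)
  two : Nonempty (M →+* ℚ_[2])
  split : ∀ q ∈ S, SplitsCompletely M q
  ramified : ∀ p : ℕ, p.Prime → Unramified M p ∨ IrreducibleMod f p

/-- The field `M` is generated over `ℚ` by square roots of elements of `E`. -/
def GeneratedByRoots (E : Set ℕ) (M : Type) [Field M] [CharZero M] : Prop :=
  ∃ s : Set M, IntermediateField.adjoin ℚ s = ⊤ ∧ ∀ x ∈ s, ∃ p ∈ E, x ^ 2 = (p : M)

/-- Every algebraic point `(a, b)` of `y ^ 2 = P(x)` over an extension `K` of `M` of degree at most `n` is the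
pull-back of a point of the line: `b` is not in `M(a)`. -/
def PulledBack {M : Type} [Field M] (P : M[X]) (n : ℕ) : Prop :=
  ∀ (K : Type) [Field K] [Algebra M K] [FiniteDimensional M K], Module.finrank M K ≤ n →
    ∀ a b : K, b ^ 2 = aeval a P → b ∉ M⟮a⟯

/-- The curve `y ^ 2 = P(x)` has no point except the point at infinity over any extension `K` of `M` of odd
degree at most `n`. -/
def NoOddPoints {M : Type} [Field M] (P : M[X]) (n : ℕ) : Prop :=
  ∀ (K : Type) [Field K] [Algebra M K] [FiniteDimensional M K], Module.finrank M K ≤ n →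
    Odd (Module.finrank M K) → ∀ a b : K, b ^ 2 ≠ aeval a P

/-- The properties of `y ^ 2 = P(x)` over the number field `M`, where `P` has degree `2 g + 1`: `J(M) = 0`, the
2-primary part of the Tate-Shafarevich group of `J` over `M` is zero, all points of degree at most `2 g` are
pulled back from the line and none of them except the point at infinity is of odd degree. -/
structure Simple {M : Type} [Field M] [NumberField M] (g : ℕ) (P : M[X]) : Prop where
  jacobian : Subsingleton (J P M)
  sha : ShaTwoTrivialReal P (𝓞 M)
  small : PulledBack P (2 * g)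
  odd : NoOddPoints P (2 * g)

/-- The properties of `f`: irreducible over `ℚ`, modulo `2` and modulo all `p ∈ T`; `y ^ 2 = f(x)` is simple over
all number fields in the class `E(f, S)`; and there is an infinite set `E` of primes such that all number fields
generated by square roots of elements of `E` are in this class, and `y ^ 2 = f(x)` has no points except the point
at infinity over all fields, of finite or infinite degree, generated by square roots of elements of `E`. -/
structure Uniform (S T : Finset ℕ) (g : ℕ) (f : ℤ[X]) : Prop where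
  irreducible : Irreducible (f.map (Int.castRingHom ℚ))
  two : IrreducibleMod f 2
  mod : ∀ p ∈ T, IrreducibleMod f p
  simple : ∀ (M : Type) [Field M] [NumberField M], InClass S f M →
    Simple g (f.map (Int.castRingHom M))
  many : ∃ E : Set ℕ, E.Infinite ∧ (∀ p ∈ E, p.Prime) ∧
    (∀ (M : Type) [Field M] [NumberField M], GeneratedByRoots E M → InClass S f M) ∧
    ∀ (L : Type) [Field L] [CharZero L], GeneratedByRoots E L → ∀ a b : L, b ^ 2 ≠ aeval a f

/-- The polynomials `f` of height at most `B` with these properties. -/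
def Good (S T : Finset ℕ) (g B : ℕ) : Set ℤ[X] := {f ∈ Polys g B | Uniform S T g f}

/-- Simple over the fields in the class. -/
theorem simple_of {g : ℕ} {S : Finset ℕ} {f f₁ : ℤ[X]} {ϖ : ℤ} (hm : f.Monic)
    (hd : f.natDegree = 2 * g + 1) (hi : Irreducible (f.map (Int.castRingHom ℚ)))
    (h2 : (2 : ℤ) ∣ ϖ) (h4 : ¬ (4 : ℤ) ∣ ϖ)
    (hreg : Pool.Agent.H905.OP.RegV (Ideal.span {(2 : ℤ)}) ϖ f)
    (huni : Pool.Agent.N874.TQ.Uni S f f) (M : Type) [Field M] [NumberField M]
    (hM : InClass S f M) : Simple g (f.map (Int.castRingHom M)) := by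
  obtain ⟨hgal, ⟨n, hn⟩, ⟨ρ⟩, ⟨τ⟩, hQ, hP⟩ := hM
  have hsel : Pool.Agent.N874.QM.SelM M (f.map (algebraMap ℤ M)) := by
    refine huni M τ ρ n hn (fun q hq w hw => ⟨?_, fun y => ?_⟩) fun p hp hram => ?_
    · exact (Pool.Agent.N874.TQ.val_iff q w hw).2 ((hQ q hq).1 w hw)
    · obtain ⟨y, rfl⟩ := Ideal.Quotient.mk_surjective y
      obtain ⟨b, hb⟩ := (hQ q hq).2 w hw y
      exact ⟨b, (Ideal.Quotient.eq.2 hb).symm⟩
    · rcases hP p hp with h | h
      · obtain ⟨w, hw, hne⟩ := hram
        exact absurd ((Pool.Agent.N874.TQ.val_iff p w hw).2 (h w hw)) hne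
      · exact h
  have h5 := Pool.Agent.N874.QM.genuine M hn hm
    (by rw [hd]; exact odd_two_mul_add_one g) hi hsel
  have e : f.map (Int.castRingHom M) =
      (f.map (Int.castRingHom (𝓞 M))).map (algebraMap (𝓞 M) M) := by
    rw [Polynomial.map_map, RingHom.ext_int (Int.castRingHom M)
      ((algebraMap (𝓞 M) M).comp (Int.castRingHom (𝓞 M)))]
  have e' : f.map (algebraMap ℤ M) = (f.map (Int.castRingHom (𝓞 M))).map (algebraMap (𝓞 M) M) := by
    rw [← e]
    congr 1
  rw [e'] at h5
  rw [e]
  obtain ⟨h6, h7⟩ := h5
  have hsep : (f.map (Int.castRingHom M)).Separable := by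
    have h8 : f.map (Int.castRingHom M) =
        (f.map (Int.castRingHom ℚ)).map (algebraMap ℚ M) := by
      rw [Polynomial.map_map]
      congr 1
      exact RingHom.ext_int _ _
    rw [h8]
    exact hi.separable.map
  have hHF : Pool.Agent.Y723.HJ.HF ((f.map (Int.castRingHom (𝓞 M))).map (algebraMap (𝓞 M) M)) :=
    { monic := (hm.map _).map _
      odd := by
        rw [(hm.map _).natDegree_map, hm.natDegree_map, hd]
        exact odd_two_mul_add_one g
      sep := by rw [← e]; exact hsep
      two := two_ne_zero }
  have hreg' : Pool.Agent.H905.OP.RegV (Pool.Agent.H905.OP.wP τ).asIdeal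
      (Int.castRingHom (𝓞 M) ϖ) (f.map (Int.castRingHom (𝓞 M))) := by
    refine hreg.map _ fun x hx => ?_
    rw [Ideal.mem_span_singleton] at hx
    obtain ⟨y, rfl⟩ := hx
    rw [map_mul]
    exact Ideal.mul_mem_right _ _ (by
      rw [map_ofNat]
      exact Pool.Agent.H905.OP.wP_two τ)
  have hϖ1 : Int.castRingHom (𝓞 M) ϖ ∈ (Pool.Agent.H905.OP.wP τ).asIdeal := by
    obtain ⟨y, rfl⟩ := h2
    rw [map_mul]
    exact Ideal.mul_mem_right _ _ (by
      rw [map_ofNat]
      exact Pool.Agent.H905.OP.wP_two τ)
  have hcl := Pool.Agent.H905.OP.triv_F M (Pool.Agent.H905.OP.wP τ) hϖ1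
    (Pool.Agent.H905.OP.wP_sq τ h4) (Pool.Agent.H905.OP.wP_two τ) (hm.map _)
    (by rw [hm.natDegree_map, hd]) hreg' hHF h6
  have hdM : ((f.map (Int.castRingHom (𝓞 M))).map (algebraMap (𝓞 M) M)).natDegree = 2 * g + 1 := by
    rw [(hm.map _).natDegree_map, hm.natDegree_map, hd]
  exact ⟨Pool.Agent.H905.OP.jac_one hcl, h7,
    fun K _ _ _ hK a b hab => Pool.Agent.H905.OP.low hdM hcl hK hab,
    fun K _ _ _ hK ho a b => Pool.Agent.H905.OP.low_odd hdM hcl hK ho a b⟩

/-- For every `g ≥ 1` and every finite set `T` of primes there are a finite set `S` of primes, disjoint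
from `T`, and a positive constant `c` such that for all large `B` at least `c` times the number of all the
`f` of height at most `B` have the properties `Uniform S T g f`. -/
theorem result (g : ℕ) (hg : 1 ≤ g) (T : Finset ℕ) (hT : ∀ p ∈ T, p.Prime) :
    (∀ B : ℕ, 1 ≤ B → (Polys g B).Finite) ∧
    ∃ S : Finset ℕ, (∀ q ∈ S, q.Prime) ∧ Disjoint S T ∧
      ∃ c : ℝ, 0 < c ∧ ∀ᶠ B : ℕ in atTop, 0 < (Polys g B).ncard ∧
        c * ((Polys g B).ncard : ℝ) ≤ ((Good S T g B).ncard : ℝ) := by
  have heq : ∀ B, Polys g B = {f : ℤ[X] | Pool.Agent.N783.PQ.Ht g B f} := by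
    intro B
    ext f
    exact ⟨fun h => ⟨h.monic, h.degree, h.trace, h.height⟩, fun h => ⟨h.mon, h.deg, h.tr, h.ht⟩⟩
  have hfin : ∀ B : ℕ, 1 ≤ B → (Polys g B).Finite := by
    intro B hB
    rw [heq]
    exact (Pool.Agent.N400.PQ.ht_card g B hB).1
  refine ⟨hfin, ?_⟩
  obtain ⟨f₁, ϖ, hϖ2, hϖ4, hreg, S, hS, hdis, c, hc, B₀, hB₀⟩ :=
    Pool.Agent.H905.OP.mainZ hg (insert 2 T) (by
      intro p hp
      rcases Finset.mem_insert.1 hp with rfl | hp
      · exact Nat.prime_two
      · exact hT p hp)
  have hS2 : ∀ q ∈ S, q.Prime ∧ q ≠ 2 := by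
    intro q hq
    refine ⟨hS q hq, ?_⟩
    rintro rfl
    exact Finset.disjoint_left.1 hdis hq (Finset.mem_insert_self 2 T)
  refine ⟨S, hS, Finset.disjoint_of_subset_right (Finset.subset_insert 2 T) hdis, c, hc, ?_⟩
  filter_upwards [eventually_ge_atTop B₀, eventually_ge_atTop 1] with B hB hB1
  obtain ⟨hHt, hle⟩ := hB₀ B hB
  have hsub : {f : ℤ[X] | Pool.Agent.N783.PQ.Ht g B f ∧ Irreducible (Pool.Agent.N783.PQ.ov ℚ f) ∧
      (∀ p ∈ insert 2 T, Irreducible (Pool.Agent.N783.PQ.rd p f)) ∧
      Pool.Agent.N874.TQ.Tws g S f ∧ Pool.Agent.N874.TQ.Uni S f f ∧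
      ∀ j, (4 : ℤ) ∣ f.coeff j - f₁.coeff j} ⊆ Good S T g B := by
    rintro f ⟨h1, h3, hTi, -, h4, h5⟩
    have hi : Irreducible (f.map (Int.castRingHom ℚ)) := h3
    have hr : Pool.Agent.H905.OP.RegV (Ideal.span {(2 : ℤ)}) ϖ f := by
      refine hreg.congr fun j => ?_
      rw [Ideal.span_singleton_pow, Ideal.mem_span_singleton]
      norm_num
      exact h5 j
    have hsimple : ∀ (M : Type) [Field M] [NumberField M], InClass S f M →
        Simple g (f.map (Int.castRingHom M)) := fun M _ _ hM =>
      simple_of (f₁ := f₁) h1.mon h1.deg hi hϖ2 hϖ4 hr h4 M hM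
    refine ⟨⟨h1.mon, h1.deg, h1.tr, h1.ht⟩, h3, hTi 2 (Finset.mem_insert_self 2 T),
      fun p hp => hTi p (Finset.mem_insert_of_mem hp), hsimple, ?_⟩
    set E : Set ℕ := {p | p.Prime ∧ p % 8 = 1 ∧ p ∉ S ∧ (∀ q ∈ S, IsSquare (p : ZMod q)) ∧
      IrreducibleMod f p} with hE
    have hclass : ∀ (M : Type) [Field M] [NumberField M], GeneratedByRoots E M →
        InClass S f M := by
      rintro M _ _ ⟨s, hs, hsq⟩
      have hsq1 : ∀ x ∈ s, ∃ p : ℕ, x ^ 2 = (p : M) := fun x hx => by
        obtain ⟨p, -, hp⟩ := hsq x hx
        exact ⟨p, hp⟩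
      have hunr : ∀ l : ℕ, l.Prime → l ≠ 2 → l ∉ E → Unramified M l := by
        intro l hl hl2 hlE
        refine Pool.Agent.H905.OP.mq_unram hs hl hl2 fun x hx => ?_
        obtain ⟨p, hpE, hp⟩ := hsq x hx
        refine ⟨p, hp, fun hlp => hlE ?_⟩
        rwa [(Nat.prime_dvd_prime_iff_eq hl hpE.1).1 hlp]
      refine ⟨Pool.Agent.H905.OP.mq_galois hs hsq1, Pool.Agent.H905.OP.mq_rank hs hsq1,
        Pool.Agent.H905.OP.mq_hom hs fun x hx => ?_, Pool.Agent.H905.OP.mq_hom hs fun x hx => ?_,
        fun q hq => ⟨hunr q (hS2 q hq).1 (hS2 q hq).2 fun h => h.2.2.1 hq,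
          Pool.Agent.H905.OP.mq_split hs (hS2 q hq).1 (hS2 q hq).2 fun x hx => ?_⟩,
        fun p hp => ?_⟩
      · obtain ⟨p, -, hp⟩ := hsq x hx
        exact ⟨p, hp, Real.sqrt p, Real.sq_sqrt (Nat.cast_nonneg p)⟩
      · obtain ⟨p, hpE, hp⟩ := hsq x hx
        exact ⟨p, hp, Pool.Agent.N891.PQ.sq_two p hpE.2.1⟩
      · obtain ⟨p, hpE, hp⟩ := hsq x hx
        refine ⟨p, hp, fun hqp => hpE.2.2.1 ?_, hpE.2.2.2.1 q hq⟩
        rwa [← (Nat.prime_dvd_prime_iff_eq (hS2 q hq).1 hpE.1).1 hqp]
      · by_cases hp2 : p = 2
        · right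
          rw [hp2]
          exact hTi 2 (Finset.mem_insert_self 2 T)
        · by_cases hpE : p ∈ E
          · exact Or.inr hpE.2.2.2.2
          · exact Or.inl (hunr p hp hp2 hpE)
    refine ⟨E, ?_, fun p hp => hp.1, hclass, ?_⟩
    · refine Set.infinite_of_not_bddAbove ?_
      rintro ⟨b, hb⟩
      obtain ⟨p, hp, hpB, hp8, hpS, hpi⟩ := Pool.Agent.H905.OP.supply h1.mon (by
        rw [h1.deg]
        exact odd_two_mul_add_one g) (hTi 2 (Finset.mem_insert_self 2 T)) hi.separable S hS2
        (max b (∑ q ∈ S, q))
      have h7 : p ∉ S := by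
        intro hpS'
        have h8 : p ≤ ∑ q ∈ S, q := Finset.single_le_sum (f := fun q : ℕ => q)
          (fun q _ => Nat.zero_le q) hpS'
        have h9 := (le_max_right b (∑ q ∈ S, q)).trans_lt hpB
        omega
      have h10 : p ≤ b := hb ⟨hp, hp8, h7, hpS, hpi⟩
      have h11 := (le_max_left b (∑ q ∈ S, q)).trans_lt hpB
      omega
    · rintro L _ _ ⟨s, hs, hsq⟩
      refine Pool.Agent.H905.OP.inf_point (E := E) (fun M _ _ t ht htq a b => ?_) s hs hsq
      have h6 := (hsimple M (hclass M ⟨t, ht, htq⟩)).odd M (by
        rw [Module.finrank_self]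
        omega) (by
        rw [Module.finrank_self]
        exact odd_one) a b
      intro hab
      apply h6
      rw [hab, aeval_def, aeval_def, eval₂_map]
      congr 1
  have hfin2 : (Good S T g B).Finite := (hfin B hB1).subset fun f hf => hf.1
  have h1 := Set.ncard_le_ncard hsub hfin2
  rw [heq]
  refine ⟨?_, hle.trans (by exact_mod_cast h1)⟩
  rw [Set.ncard_pos hHt]
  refine ⟨X ^ (2 * g + 1), monic_X_pow _, natDegree_X_pow _, ?_, fun j hj => ?_⟩
  · rw [coeff_X_pow, if_neg (by omega)]
  · rw [coeff_X_pow, if_neg (by omega), abs_zero]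
    positivity

end Pool.Agent.Results.MP_7ede32_ag.OnePointUniformly
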