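import Pool.Agent.H441.FT.Kemb
import Pool.Graph.R_pool_sql_team_seeded_63374d34.N254.SQ.Fin3
import Pool.Graph.R_pool_sql_team_seeded_63374d34.N254.SQ.IdlR
import Pool.Graph.R_pool_sql_team_seeded_63374d34.N254.SQ.DenseR
import Pool.Graph.R_pool_sql_team_seeded_63374d34.N254.SQ.RestrR

/-!
# Lang's strong conjecture on rational points is a question on rational parallelograms

MP_7ede32_ag, Q1. The diagonals `y_p, y_q` and the sides `y_s, y_t` of a parallelogram satisfy the
parallelogram law `y_p ^ 2 + y_q ^ 2 = 2 y_s ^ 2 + 2 y_t ^ 2`. We consider the projective varieties `Y_R`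
over `ℚ` which are intersections of quadrics of this form,

`Y_R : y_p ^ 2 + y_q ^ 2 = 2 y_s ^ 2 + 2 y_t ^ 2`, `(p, q, s, t) ∈ R`,

for a finite list `R` of quadruples of indices: the varieties of systems of parallelograms some of whose
sides and diagonals are equal. There is no other parameter: they are given by the combinatorial data
`R` alone.

**Theorem 1.** Let `K` be a number field and `X` any projective variety over `K` in `P^n` (any
dimension, any singularities). There are a list `R` and forms `φ_0, …, φ_N` of the same degree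
over `K`, among them all monomials of this degree, so that `φ : P^n → P^N` is a closed embedding, such
that `X_τ = (φ^τ)⁻¹(Y_R)` for all embeddings `τ` of `K` in any field (in particular `X = φ⁻¹(Y_R)`), and
every closed subvariety of `Y_R` over `ℂ` of positive dimension is of general type or is contained in one
of the finitely many copies

`{(± φ_0^τ(x) : … : ± φ_N^τ(x)) : x ∈ X_τ}`, `τ : K → ℂ`,

of the conjugates of `X`.

**Theorem 2.** For a projective variety `X` over a number field let the exceptional set `E(X)` be the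
smallest closed subset such that `(X ∖ E(X))(L)` is finite for all number fields `L`. Lang's strong
conjecture `E(X) ≠ X` for all irreducible projective varieties `X` of general type over all number
fields (this is equivalent to Q1, by resolution of singularities and projective closures) is
equivalent to the following statement on the varieties `Y_R` over `ℚ`: no component of positive
dimension of `E(Y_R)` is of general type.

Proof. See `Pool/Agent/H441/FT`. First `X` is replaced by the union of its conjugates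
`{(x : α x) : x ∈ X_τ}`, where `K = ℚ(α)`; it is a variety over `ℚ`. The coordinates of `P^N` are
indexed by all integral vectors `u` in a large box, `φ_u(x) = ⟨u, v(x)⟩` with the Veronese embedding
`v`. The parallelogram laws for all `u, v`, `u + v`, `u - v` in the box express that the squares `y_u ^ 2`
are the values of a quadratic form; the equation `g(p) + g(q) = g(s) + g(t)` is equivalent to
`g(p + q) + g(p - q) = 2 g(s) + 2 g(t)`, so also the equations of the Veronese variety and of the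
variety in it are of this form. For function fields not of general type the quadratic form is a
square (library theorem `core_rad` of Büchi type on one polynomial), so the point is in a copy of `X`.
Theorem 2: if `X` is of general type and `E(X) = X`, then a component `W` of `E(Y_R)` contains
`φ(X)`; it is not of general type, so it is in a copy of a conjugate of `X`, so it is equal to it and of
general type.
-/

set_option autoImplicit false

namespace Pool.Agent.Results.MP_7ede32_ag.ParallelogramsSuffice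

open MvPolynomial
open Pool.Agent.W602.GT (SubVar GeneralType)
open Pool.Agent.N254.SQ (IsForm Component FiniteOff GenericPoint)

/-- Lang's strong conjecture for all geometrically irreducible projective varieties of positive
dimension over the number field `k`: if `V(S)` is of general type, then for some form `G` which does not
vanish at the generic point and all number fields `L` only finitely many `L`-rational points are
outside of `G = 0`. -/
def StrongLang (k : IntermediateField ℚ ℂ) : Prop :=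
  ∀ (n : ℕ) (S : Set (MvPolynomial (Fin (n + 1)) k)), (∀ p ∈ S, ∃ e, p.IsHomogeneous e) →
    ∀ (L : Type) [Field L] [Algebra ℂ L] (w : ℕ) (y : Fin (n + 1) → L), 1 ≤ w →
      GenericPoint S L w y → GeneralType ℂ L w →
      ∃ G : MvPolynomial (Fin (n + 1)) ℂ, IsForm G ∧ aeval y G ≠ 0 ∧
        FiniteOff (map (algebraMap k ℂ) '' S) G

/-- the equations `y_p ^ 2 + y_q ^ 2 = 2 y_s ^ 2 + 2 y_t ^ 2`, `(p, q, s, t) = R i`, `i < k` -/
noncomputable def parallelograms {N k : ℕ} (R : Fin k → Fin 4 → Fin (N + 1)) :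
    Fin k → MvPolynomial (Fin (N + 1)) ℚ :=
  fun i => X (R i 0) ^ 2 + X (R i 1) ^ 2 - 2 * (X (R i 2) ^ 2 + X (R i 3) ^ 2)

/-- no component of positive dimension of the exceptional set of `Y_R` is of general type -/
def NoComponent {N k : ℕ} (R : Fin k → Fin 4 → Fin (N + 1)) : Prop :=
  ∀ (L : Type) [Field L] [Algebra ℂ L] (w : ℕ) (y : Fin (N + 1) → L), 1 ≤ w →
    SubVar (fun i => map (algebraMap ℚ ℂ) (parallelograms R i)) L w y → GeneralType ℂ L w →
    ¬ Component (FiniteOff (Set.range fun i => map (algebraMap ℚ ℂ) (parallelograms R i))) y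

section proof

open Pool.Agent.N254.SQ (t_restr Eqs Gen Irr numf t_idls t_dense t_null reduce eval₂_scale)
open Pool.Agent.W602.GT (coords)
open Pool.Agent.H441.UA (vals pullφ pullφ_eval)
open Pool.Agent.H441.FT (exists_parK)
open scoped LinearAlgebra.Projectivization

/-- fewer equations -/
theorem finite_mono {n : ℕ} {S S' : Set (MvPolynomial (Fin (n + 1)) ℂ)} (h : S ⊆ S')
    {G : MvPolynomial (Fin (n + 1)) ℂ} (hG : FiniteOff S G) : FiniteOff S' G := by
  intro L hL
  refine (hG L hL).subset ?_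
  rintro P ⟨x, hx, h1, h2, h3, h4⟩
  exact ⟨x, hx, h1, h2, fun p hp => h3 p (h hp), h4⟩

theorem aeval_map' {k : IntermediateField ℚ ℂ} {M : ℕ} (p : MvPolynomial (Fin (M + 1)) k)
    (x : Fin (M + 1) → ℂ) : aeval x (map (algebraMap k ℂ) p) = aeval x p := by
  rw [aeval_def, aeval_def, eval₂_map]
  rfl

/-- the exceptional set of `X` is contained in the inverse image of the one of `Y` -/
theorem finite_pull (k : IntermediateField ℚ ℂ) (hk : FiniteDimensional ℚ k) {n N e : ℕ}
    {φ : Fin (N + 1) → MvPolynomial (Fin (n + 1)) k} (hφ : ∀ j, (φ j).IsHomogeneous e)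
    (hne : ∀ x : Fin (n + 1) → ℂ, x ≠ 0 → vals (algebraMap k ℂ) φ x ≠ 0)
    (hinj : ∀ (x x' : Fin (n + 1) → ℂ) (s : ℂ), x ≠ 0 →
      vals (algebraMap k ℂ) φ x = s • vals (algebraMap k ℂ) φ x' → ∃ t : ℂ, x = t • x')
    {S : Set (MvPolynomial (Fin (n + 1)) ℂ)} {S' : Set (MvPolynomial (Fin (N + 1)) ℂ)}
    (hS : ∀ x : Fin (n + 1) → ℂ, x ≠ 0 → (∀ p ∈ S, eval x p = 0) →
      ∀ p ∈ S', eval (vals (algebraMap k ℂ) φ x) p = 0)
    {P : MvPolynomial (Fin (N + 1)) ℂ} (hP : FiniteOff S' P) :
    FiniteOff S (pullφ (algebraMap k ℂ) φ P) := by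
  classical
  intro L hL
  let ψ : ℙ ℂ (Fin (n + 1) → ℂ) → ℙ ℂ (Fin (N + 1) → ℂ) := fun p =>
    Projectivization.mk ℂ (vals (algebraMap k ℂ) φ p.rep) (hne _ p.rep_nonzero)
  have hψ : Function.Injective ψ := by
    intro p p' hp
    obtain ⟨a, ha⟩ := (Projectivization.mk_eq_mk_iff ℂ _ _ _ _).1 hp
    obtain ⟨c, hc⟩ := hinj _ _ (a : ℂ) p.rep_nonzero ha.symm
    have hc0 : c ≠ 0 := by
      intro h0
      rw [h0, zero_smul] at hc
      exact p.rep_nonzero hc
    rw [← p.mk_rep, ← p'.mk_rep, Projectivization.mk_eq_mk_iff]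
    exact ⟨Units.mk0 c hc0, hc.symm⟩
  have hfin := hP (L ⊔ k) inferInstance
  apply Set.Finite.of_finite_image (f := ψ) (hfin.subset ?_) hψ.injOn
  rintro _ ⟨p, ⟨x, hx, hpx, hxL, hxS, hxG⟩, rfl⟩
  refine ⟨vals (algebraMap k ℂ) φ x, hne x hx, ?_, ?_, hS x hx hxS, ?_⟩
  · obtain ⟨a, ha⟩ := Projectivization.exists_smul_eq_mk_rep ℂ x hx
    have h1 : p.rep = (a : ℂ) • x := by
      rw [hpx]
      exact ha.symm
    change Projectivization.mk ℂ (vals (algebraMap k ℂ) φ p.rep) _ = _
    rw [Projectivization.mk_eq_mk_iff]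
    refine ⟨a ^ e, ?_⟩
    rw [h1]
    funext j
    have h2 : vals (algebraMap k ℂ) φ ((a : ℂ) • x) j = (a : ℂ) ^ e *
        vals (algebraMap k ℂ) φ x j := eval₂_scale (algebraMap k ℂ) (hφ j) (a : ℂ) x
    rw [h2, Units.smul_def, Units.val_pow_eq_pow_val, Pi.smul_apply, smul_eq_mul]
  · intro j
    have h1 : vals (algebraMap k ℂ) φ x j = ∑ d ∈ (φ j).support,
        algebraMap k ℂ ((φ j).coeff d) * ∏ i, x i ^ d i := eval₂_eq' _ _ _
    rw [h1]
    refine sum_mem fun d _ => mul_mem ?_ (prod_mem fun i _ => pow_mem ?_ _)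
    · exact (le_sup_right : k ≤ L ⊔ k) ((φ j).coeff d).2
    · exact (le_sup_left : L ≤ L ⊔ k) (hxL i)
  · have h1 := pullφ_eval (algebraMap k ℂ) φ P x
    intro h0
    apply hxG
    have h2 : eval x (pullφ (algebraMap k ℂ) φ P) = aeval x (pullφ (algebraMap k ℂ) φ P) := by
      rw [← coe_aeval_eq_eval]
      rfl
    rw [h2, h1]
    rw [← coe_aeval_eq_eval] at h0
    exact h0

theorem forward (h : ∀ k : IntermediateField ℚ ℂ, FiniteDimensional ℚ k → StrongLang k)
    {N k : ℕ} (R : Fin k → Fin 4 → Fin (N + 1)) : NoComponent R := by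
  intro L _ _ w y hw hy hgt hcomp
  have hy' : SubVar (fun p : (Set.range fun i => map (algebraMap ℚ ℂ) (parallelograms R i)) =>
      (p : MvPolynomial (Fin (N + 1)) ℂ)) L w y := by
    refine ⟨hy.ne, fun p => ?_, hy.gen, hy.dim⟩
    obtain ⟨_, i, rfl⟩ := p
    exact hy.mem i
  obtain ⟨T, hT1, hT2⟩ := t_dense.finite N _ L w y hy' hcomp
  obtain ⟨h1, H, hH, hyH, h2⟩ := hcomp
  obtain ⟨k', -, hk', S', hS1, hS2, hS3⟩ := numf N L w y ⟨hy.ne, hy.gen, hy.dim⟩ T hT1 hT2 ⊥
    inferInstance
  obtain ⟨G, hG, hyG, hfin⟩ := h k' hk' N (S' : Set _) hS1 L w y hw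
    ⟨⟨hy.ne, fun p => hS2 p p.2, hy.gen, hy.dim⟩, fun G hG hyG x hx => by
      have h3 := hS3 G hG hyG ℂ x (fun p hp => by
        rw [aeval_map']
        exact hx p hp)
      exact h3⟩ hgt
  have h3 : FiniteOff (Eqs y) G := by
    refine finite_mono ?_ hfin
    rintro _ ⟨p, hp, rfl⟩
    obtain ⟨e, he⟩ := hS1 p hp
    exact ⟨⟨e, he.map _⟩, hS2 p hp⟩
  have h4 := t_restr.finite N _ L y G H hG hH h2 h3
  obtain ⟨e, he⟩ := hG
  obtain ⟨e', he'⟩ := hH
  have h5 := h1 (G * H) ⟨e + e', he.mul he'⟩ h4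
  rw [map_mul] at h5
  rcases mul_eq_zero.1 h5 with h6 | h6
  · exact hyG h6
  · exact hyH h6

theorem backward
    (h : ∀ (N k : ℕ) (R : Fin k → Fin 4 → Fin (N + 1)), NoComponent R)
    (k : IntermediateField ℚ ℂ) (hk : FiniteDimensional ℚ k) : StrongLang k := by
  classical
  intro n S hS L _ _ w y hw hgp hgt
  have : NumberField k := { to_charZero := inferInstance, to_finiteDimensional := hk }
  obtain ⟨T, hT, hTS⟩ := reduce S
  obtain ⟨N, r, R, e, φ, he, hφ, -, hne, hinj, hpts, -, hkey⟩ := exists_parK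
    (fun p : T => (p : MvPolynomial (Fin (n + 1)) k)) (fun p => hS p (hT p.2))
  -- zeros of the finite family
  have hz : ∀ x : Fin (n + 1) → ℂ, (∀ p ∈ map (algebraMap k ℂ) '' (T : Set _), eval x p = 0) →
      ∀ p ∈ S, aeval x p = 0 := by
    intro x hx p hp
    have h1 := hTS ℂ (algebraMap k ℂ) x (fun p hp => hx _ ⟨p, hp, rfl⟩) p hp
    rw [eval_map] at h1
    exact h1
  have hirr : Irr (map (algebraMap k ℂ) '' (T : Set _)) y := by
    intro G hG hyG
    exact t_null n _ G fun x hx => hgp.all G hG hyG x (hz x hx)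
  have hIA : ∀ i, FiniteOff (Set.range fun i => map (algebraMap ℚ ℂ) (parallelograms R i))
      (map (algebraMap ℚ ℂ) (parallelograms R i)) := by
    intro i L' _
    refine Set.finite_empty.subset ?_
    rintro P ⟨x, hx, -, -, h3, h4⟩
    exact absurd (h3 _ ⟨i, rfl⟩) h4
  obtain ⟨P, hP, hPQ, hyP⟩ := hkey (algebraMap k ℂ) L w y hw ⟨hgp.sub.ne, hgp.sub.gen, hgp.sub.dim⟩
    (by
      intro G hG hyG Ω _ _ x hx
      refine hirr G hG hyG Ω x ?_
      rintro _ ⟨p, hp, rfl⟩
      rw [aeval_def, eval₂_map]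
      exact hx ⟨p, hp⟩) (fun p => by
      have h1 := hgp.sub.mem ⟨p, hT p.2⟩
      unfold Pool.Agent.W602.GT.val at h1
      rw [aeval_def, eval₂_map] at h1
      exact h1) hgt _ (t_idls.finite N _) hIA (by
      intro L' _ _ w' y' hw' hy' hgt'
      exact h N r R L' w' y' hw' hy' hgt')
  have hpull : IsForm (pullφ (algebraMap k ℂ) φ P) := by
    obtain ⟨d, hd⟩ := hP
    exact ⟨e * d, hd.aeval _ fun j => (hφ j).map _⟩
  refine ⟨pullφ (algebraMap k ℂ) φ P, hpull, ?_, ?_⟩
  · rw [pullφ_eval]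
    exact hyP
  · refine finite_mono (Set.image_mono hT) (finite_pull k hk hφ (fun x hx => hne ℂ _ x hx)
      (fun x x' s hx hs => hinj ℂ _ x x' s hx hs) ?_ hPQ)
    rintro x hx hxS _ ⟨i, rfl⟩
    have h1 := (hpts ℂ (algebraMap k ℂ) x hx).1 (fun p => by
      have h2 := hxS _ ⟨p, p.2, rfl⟩
      rw [eval_map] at h2
      exact h2) i
    have h2 : (algebraMap k ℂ).comp (algebraMap ℚ k) = algebraMap ℚ ℂ := Subsingleton.elim _ _
    rw [h2] at h1
    rw [eval_map]
    exact h1

theorem part_one (K : Type) [Field K] [NumberField K] (n : ℕ) (ι : Type) [Finite ι]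
    (F : ι → MvPolynomial (Fin (n + 1)) K) (hF : ∀ i, ∃ e, (F i).IsHomogeneous e) :
    ∃ (N k : ℕ) (R : Fin k → Fin 4 → Fin (N + 1)) (e : ℕ)
      (φ : Fin (N + 1) → MvPolynomial (Fin (n + 1)) K), 1 ≤ e ∧ (∀ j, (φ j).IsHomogeneous e) ∧
      (∀ α : Fin (n + 1) → ℕ, ∑ i, α i = e → ∃ j, φ j = ∏ i, X i ^ α i) ∧
      (∀ (Ω : Type) [Field Ω] (τ : K →+* Ω) (x : Fin (n + 1) → Ω), x ≠ 0 →
        ((∀ i, eval₂ τ x (F i) = 0) ↔ ∀ i, eval₂ (τ.comp (algebraMap ℚ K))
          (fun j => eval₂ τ x (φ j)) (parallelograms R i) = 0)) ∧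
      ∀ (L : Type) [Field L] [Algebra ℂ L] (w : ℕ) (y : Fin (N + 1) → L), 1 ≤ w →
        SubVar (fun i => map (algebraMap ℚ ℂ) (parallelograms R i)) L w y →
        GeneralType ℂ L w ∨ ∃ (τ : K →+* ℂ) (ε : Fin (N + 1) → ℂ) (x : Fin (n + 1) → L) (s : L),
          (∀ j, ε j = 1 ∨ ε j = -1) ∧ x ≠ 0 ∧ s ≠ 0 ∧ (∀ i, aeval x (map τ (F i)) = 0) ∧
          ∀ j, y j = s * (algebraMap ℂ L (ε j) * aeval x (map τ (φ j))) := by
  obtain ⟨N, k, R, e, φ, he, hφ, hmono, -, -, hpts, hsub, -⟩ := exists_parK F hF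
  refine ⟨N, k, R, e, φ, he, hφ, hmono, fun Ω _ τ x hx => hpts Ω τ x hx, ?_⟩
  intro L _ _ w y _ hy
  by_cases hg : GeneralType ℂ L w
  · exact Or.inl hg
  · right
    obtain ⟨τ, ε, x, s, hε, hx, hs, hxF, hyx⟩ := hsub L w y hy hg
    refine ⟨τ, ε, x, s, fun j => ?_, hx, hs, fun i => ?_, fun j => ?_⟩
    · have h1 : (ε j - 1) * (ε j + 1) = 0 := by linear_combination hε j
      rcases mul_eq_zero.1 h1 with h | h
      · exact Or.inl (sub_eq_zero.1 h)
      · exact Or.inr (eq_neg_of_add_eq_zero_left h)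
    · rw [aeval_def, eval₂_map]
      exact hxF i
    · rw [aeval_def, eval₂_map]
      exact hyx j

end proof

theorem result :
    -- Theorem 1
    (∀ (K : Type) [Field K] [NumberField K] (n : ℕ) (ι : Type) [Finite ι]
      (F : ι → MvPolynomial (Fin (n + 1)) K), (∀ i, ∃ e, (F i).IsHomogeneous e) →
      ∃ (N k : ℕ) (R : Fin k → Fin 4 → Fin (N + 1)) (e : ℕ)
        (φ : Fin (N + 1) → MvPolynomial (Fin (n + 1)) K), 1 ≤ e ∧ (∀ j, (φ j).IsHomogeneous e) ∧
        (∀ α : Fin (n + 1) → ℕ, ∑ i, α i = e → ∃ j, φ j = ∏ i, X i ^ α i) ∧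
        -- `X_τ` is the inverse image of `Y_R`
        (∀ (Ω : Type) [Field Ω] (τ : K →+* Ω) (x : Fin (n + 1) → Ω), x ≠ 0 →
          ((∀ i, eval₂ τ x (F i) = 0) ↔ ∀ i, eval₂ (τ.comp (algebraMap ℚ K))
            (fun j => eval₂ τ x (φ j)) (parallelograms R i) = 0)) ∧
        -- closed subvarieties of `Y_R`
        ∀ (L : Type) [Field L] [Algebra ℂ L] (w : ℕ) (y : Fin (N + 1) → L), 1 ≤ w →
          SubVar (fun i => map (algebraMap ℚ ℂ) (parallelograms R i)) L w y →
          GeneralType ℂ L w ∨ ∃ (τ : K →+* ℂ) (ε : Fin (N + 1) → ℂ) (x : Fin (n + 1) → L) (s : L),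
            (∀ j, ε j = 1 ∨ ε j = -1) ∧ x ≠ 0 ∧ s ≠ 0 ∧ (∀ i, aeval x (map τ (F i)) = 0) ∧
            ∀ j, y j = s * (algebraMap ℂ L (ε j) * aeval x (map τ (φ j)))) ∧
    -- Theorem 2
    ((∀ k : IntermediateField ℚ ℂ, FiniteDimensional ℚ k → StrongLang k) ↔
      ∀ (N k : ℕ) (R : Fin k → Fin 4 → Fin (N + 1)), NoComponent R) :=
  ⟨fun K _ _ n ι _ F hF => part_one K n ι F hF,
    fun h _ _ R => forward h R, fun h k hk => backward h k hk⟩

end Pool.Agent.Results.MP_7ede32_ag.ParallelogramsSuffice
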